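import Pool.Agent.Helper62.MU.St2

/-!
# MP_ae3a4d_gt, project MU, module ZB: zonal convolutions commute
-/

set_option autoImplicit false

open MeasureTheory Metric Set Filter Topology Polynomial
open scoped RealInnerProductSpace ContDiff

namespace Pool.Agent.Helper23.MU

open Pool.Agent.Helper62.MU2 Pool.Agent.Helper62.Mink

/-- an isometric involution which exchanges two unit vectors -/
lemma exists_swap {n : ℕ} (e u : E n) (h : ‖e‖ = ‖u‖) :
    ∃ R : E n ≃ₗᵢ[ℝ] E n, R e = u ∧ R u = e ∧ ∀ x, R (R x) = x := by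
  refine ⟨(Submodule.span ℝ {e - u})ᗮ.reflection, Submodule.reflection_sub h, ?_,
    fun x => Submodule.reflection_reflection _ x⟩
  have h1 := Submodule.reflection_sub h
  have h2 := Submodule.reflection_reflection (Submodule.span ℝ {e - u})ᗮ e
  rw [h1] at h2
  exact h2

theorem hZB : StZB := by
  intro n e y p f he
  by_cases hy : y = 0
  · subst hy
    unfold conv
    simp
  · have hy0 : ‖y‖ ≠ 0 := norm_ne_zero_iff.2 hy
    obtain ⟨R, h1, h2, h3⟩ := exists_swap e (‖y‖⁻¹ • y) (by
      rw [norm_smul, norm_inv, norm_norm, inv_mul_cancel₀ hy0, he])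
    have hadj : ∀ a b : E n, (inner ℝ a (R b) : ℝ) = inner ℝ (R a) b := by
      intro a b
      rw [← R.inner_map_map a (R b), h3 b]
    unfold conv
    rw [← sphere_integral_comp R (fun w => zf e (fun t => p.eval t) w *
      (‖y‖ * f (inner ℝ y w / ‖y‖)))]
    refine integral_congr_ae (Filter.Eventually.of_forall fun w => ?_)
    have hw : ‖(w : E n)‖ = 1 := by simp
    have e1 : (inner ℝ e (R (w : E n)) : ℝ) = inner ℝ y (w : E n) / ‖y‖ := by
      rw [hadj, h1, real_inner_smul_left, inv_mul_eq_div]
    have e2 : (inner ℝ y (R (w : E n)) : ℝ) / ‖y‖ = inner ℝ e (w : E n) := by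
      rw [← inv_mul_eq_div, ← real_inner_smul_left, hadj, h2]
    simp only [zf, LinearIsometryEquiv.norm_map, hw, div_one, one_mul, e1, e2]
    ring

end Pool.Agent.Helper23.MU
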